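import Pool.Agent.H867.FT.Gen5
import Pool.Agent.H261.FT867PSC

/-!
# PBS: `p`-bases inside the maximal ideal
-/

set_option autoImplicit false

namespace Pool.Agent.H363.FT867

open Pool.Agent.H867.FT MvPowerSeries

/-- Frobenius degree of the fraction field of a power series ring. -/
theorem frobDeg (p : ℕ) [Fact p.Prime] (k : Type) [Field k] [CharP k p] [PerfectRing k p] (d : ℕ)
    (L : Type) [Field L] [CharP L p] [Algebra (MvPowerSeries (Fin d) k) L]
    [IsFractionRing (MvPowerSeries (Fin d) k) L] :
    0 < Module.finrank (frobenius L p).fieldRange L ∧
      Module.finrank (frobenius L p).fieldRange L ≤ p ^ d := by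
  classical
  have hp1 : p - 1 + 1 = p := Nat.sub_add_cancel (Fact.out : p.Prime).one_le
  let v : (Fin d → Fin (p ^ 1)) → L := fun a =>
    algebraMap (MvPowerSeries (Fin d) k) L (monomial (Pool.Agent.H261.FT867.ex d a) (1 : k))
  have hspan : Submodule.span (frobenius L p).fieldRange (Set.range v) = ⊤ := by
    rw [eq_top_iff]
    intro z _
    obtain ⟨g, h, hh, rfl⟩ := IsFractionRing.div_surjective (A := MvPowerSeries (Fin d) k) z
    have hh0 : algebraMap (MvPowerSeries (Fin d) k) L h ≠ 0 := by
      intro h0
      have h1 : h = 0 := IsFractionRing.injective (MvPowerSeries (Fin d) k) L (by rw [h0, map_zero])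
      exact nonZeroDivisors.ne_zero hh h1
    have hexp := Pool.Agent.H261.FT867.expansion p k d 1 (g * h ^ (p - 1))
    let c : (Fin d → Fin (p ^ 1)) → L := fun a =>
      algebraMap (MvPowerSeries (Fin d) k) L
        (Pool.Agent.H261.FT867.cmp p k d 1 (Pool.Agent.H261.FT867.ex d a) (g * h ^ (p - 1)))
    have hexp2 : ∑ a : Fin d → Fin (p ^ 1), (c a) ^ p * v a =
        algebraMap (MvPowerSeries (Fin d) k) L g *
          (algebraMap (MvPowerSeries (Fin d) k) L h) ^ (p - 1) := by
      rw [← map_pow, ← map_mul, ← hexp, map_sum]
      refine Finset.sum_congr rfl fun a _ => ?_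
      have hpp : ∀ z : L, z ^ p ^ 1 = z ^ p := fun z => by rw [pow_one]
      rw [map_mul, map_pow, hpp]
    have hkey : algebraMap (MvPowerSeries (Fin d) k) L g / algebraMap (MvPowerSeries (Fin d) k) L h
        = ∑ a : Fin d → Fin (p ^ 1),
          (⟨frobenius L p (c a / algebraMap (MvPowerSeries (Fin d) k) L h), ⟨_, rfl⟩⟩ :
            (frobenius L p).fieldRange) • v a := by
      have h1 : ∀ a : Fin d → Fin (p ^ 1),
          (⟨frobenius L p (c a / algebraMap (MvPowerSeries (Fin d) k) L h), ⟨_, rfl⟩⟩ :
            (frobenius L p).fieldRange) • v a =
          ((c a) ^ p * v a) / (algebraMap (MvPowerSeries (Fin d) k) L h) ^ p := by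
        intro a
        rw [Subfield.smul_def]
        show (c a / algebraMap (MvPowerSeries (Fin d) k) L h) ^ p • v a = _
        rw [smul_eq_mul, div_pow]
        ring
      rw [Finset.sum_congr rfl fun a _ => h1 a, ← Finset.sum_div, hexp2, div_eq_div_iff hh0
        (pow_ne_zero _ hh0)]
      rw [mul_assoc, ← pow_succ, hp1]
    rw [hkey]
    exact Submodule.sum_mem _ fun a _ => Submodule.smul_mem _ _ (Submodule.subset_span ⟨a, rfl⟩)
  have hfin : Module.Finite (frobenius L p).fieldRange L :=
    ⟨⟨Finset.univ.image v, by
      rw [Finset.coe_image, Finset.coe_univ, Set.image_univ]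
      exact hspan⟩⟩
  refine ⟨Module.finrank_pos, ?_⟩
  have h1 := finrank_range_le_card (R := (frobenius L p).fieldRange) v
  rw [Set.finrank, hspan, finrank_top, Fintype.card_fun, Fintype.card_fin, Fintype.card_fin,
    pow_one] at h1
  exact h1

/-- The field of fractions of a finite algebra is a finite extension. -/
theorem finiteFrac (P S L K : Type) [CommRing P] [IsDomain P] [CommRing S] [IsDomain S]
    [Algebra P S] [Module.Finite P S] [FaithfulSMul P S] [Field L] [Algebra P L]
    [IsFractionRing P L] [Field K] [Algebra S K] [IsFractionRing S K] (f : L →+* K)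
    (hf : ∀ g : P, f (algebraMap P L g) = algebraMap S K (algebraMap P S g)) :
    0 < Module.finrank f.fieldRange K := by
  classical
  obtain ⟨T, hT⟩ := (Module.Finite.fg_top : (⊤ : Submodule P S).FG)
  have hfin : Module.Finite f.fieldRange K := by
    refine ⟨⟨T.image (algebraMap S K), ?_⟩⟩
    rw [eq_top_iff]
    intro z _
    have hS : ∀ s : S, algebraMap S K s ∈
        Submodule.span f.fieldRange ((T.image (algebraMap S K) : Finset K) : Set K) := by
      intro s
      have hs : s ∈ Submodule.span P (T : Set S) := by
        rw [hT]
        trivial
      induction hs using Submodule.span_induction with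
      | mem x hx =>
        apply Submodule.subset_span
        rw [Finset.coe_image]
        exact ⟨x, hx, rfl⟩
      | zero =>
        rw [map_zero]
        exact Submodule.zero_mem _
      | add x y _ _ hx hy =>
        rw [map_add]
        exact Submodule.add_mem _ hx hy
      | smul r x _ hx =>
        have h1 : algebraMap S K (r • x) =
            (⟨f (algebraMap P L r), ⟨_, rfl⟩⟩ : f.fieldRange) • algebraMap S K x := by
          rw [Subfield.smul_def]
          show algebraMap S K (r • x) = f (algebraMap P L r) * algebraMap S K x
          rw [Algebra.smul_def, map_mul, hf]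
        rw [h1]
        exact Submodule.smul_mem _ _ hx
    obtain ⟨s, t, ht, rfl⟩ := IsFractionRing.div_surjective (A := S) z
    have ht0 : t ≠ 0 := nonZeroDivisors.ne_zero ht
    have hint : IsIntegral P t := Algebra.IsIntegral.isIntegral t
    obtain ⟨u, hu0, hu⟩ : ∃ u : P, u ≠ 0 ∧ ∃ t' : S, t * t' = algebraMap P S u := by
      obtain ⟨u, hu, hd⟩ := hint.isAlgebraic.exists_nonzero_dvd (mem_nonZeroDivisors_of_ne_zero ht0)
      obtain ⟨t', ht'⟩ := hd
      exact ⟨u, hu, t', ht'.symm⟩
    obtain ⟨t', ht'⟩ := hu
    have hu1 : algebraMap S K (algebraMap P S u) ≠ 0 := by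
      intro h0
      have h1 : algebraMap P S u = 0 := IsFractionRing.injective S K (by rw [h0, map_zero])
      exact hu0 (FaithfulSMul.algebraMap_injective P S (by rw [h1, map_zero]))
    have ht1 : algebraMap S K t ≠ 0 := by
      intro h0
      exact ht0 (IsFractionRing.injective S K (by rw [h0, map_zero]))
    have h2 : algebraMap S K s / algebraMap S K t =
        (⟨(f (algebraMap P L u))⁻¹, Subfield.inv_mem _ ⟨_, rfl⟩⟩ : f.fieldRange) •
          algebraMap S K (s * t') := by
      rw [Subfield.smul_def]
      have h3 : algebraMap S K t * algebraMap S K t' = algebraMap S K (algebraMap P S u) := by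
        rw [← map_mul, ht']
      show algebraMap S K s / algebraMap S K t = (f (algebraMap P L u))⁻¹ *
        algebraMap S K (s * t')
      rw [hf, map_mul, div_eq_iff ht1, mul_assoc, mul_assoc, mul_comm (algebraMap S K t'), h3,
        mul_comm (algebraMap S K s), ← mul_assoc, inv_mul_cancel₀ hu1, one_mul]
    rw [h2]
    exact Submodule.smul_mem _ _ (hS _)
  exact Module.finrank_pos

/-- The Frobenius degree is invariant under finite extensions. -/
theorem frobDegK (p : ℕ) [Fact p.Prime] (L K : Type) [Field L] [CharP L p] [Field K] [CharP K p]
    (f : L →+* K) (hf : 0 < Module.finrank f.fieldRange K) :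
    Module.finrank (frobenius K p).fieldRange K = Module.finrank (frobenius L p).fieldRange L := by
  have hfrob : ∀ x : L, f (frobenius L p x) = frobenius K p (f x) := by
    intro x
    rw [frobenius_def, frobenius_def, map_pow]
  have h1 : f.fieldRange.map (frobenius K p) = (frobenius L p).fieldRange.map f := by
    ext z
    simp only [Subfield.mem_map, RingHom.mem_fieldRange]
    constructor
    · rintro ⟨_, ⟨x, rfl⟩, rfl⟩
      exact ⟨_, ⟨x, rfl⟩, hfrob x⟩
    · rintro ⟨_, ⟨x, rfl⟩, rfl⟩
      exact ⟨_, ⟨x, rfl⟩, (hfrob x).symm⟩
  have hA : f.fieldRange.map (frobenius K p) ≤ (frobenius K p).fieldRange := by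
    intro z hz
    obtain ⟨y, _, rfl⟩ := Subfield.mem_map.1 hz
    exact ⟨y, rfl⟩
  have hB : f.fieldRange.map (frobenius K p) ≤ f.fieldRange := by
    rw [h1]
    intro z hz
    obtain ⟨y, _, rfl⟩ := Subfield.mem_map.1 hz
    exact ⟨y, rfl⟩
  have e1 := Subfield.relfinrank_mul_finrank_top hA
  have e2 := Subfield.relfinrank_mul_finrank_top hB
  have e3 : Subfield.relfinrank (f.fieldRange.map (frobenius K p)) (frobenius K p).fieldRange =
      Module.finrank f.fieldRange K := by
    rw [(frobenius K p).fieldRange_eq_map, Subfield.relfinrank_map_map,
      Subfield.relfinrank_top_right]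
  have e4 : Subfield.relfinrank (f.fieldRange.map (frobenius K p)) f.fieldRange =
      Module.finrank (frobenius L p).fieldRange L := by
    rw [h1, f.fieldRange_eq_map, Subfield.relfinrank_map_map, Subfield.relfinrank_top_right]
  rw [e3] at e1
  rw [e4, ← e1, mul_comm] at e2
  exact (Nat.eq_of_mul_eq_mul_left hf e2).symm

/-- A purely inseparable step multiplies the degree by `p`. -/
theorem stepDeg (p : ℕ) [Fact p.Prime] (F K : Type) [Field F] [Field K] [Algebra F K] [CharP K p]
    (E : IntermediateField F K) (y : K) (hy : y ∉ E) (hyp : y ^ p ∈ E) :
    p * Module.finrank (IntermediateField.adjoin E {y}) K = Module.finrank E K := by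
  have hp : p.Prime := Fact.out
  have hirr : Irreducible (Polynomial.X ^ p - Polynomial.C (⟨y ^ p, hyp⟩ : E)) := by
    apply X_pow_sub_C_irreducible_of_prime hp
    intro b hb
    apply hy
    have h1 : (b : K) ^ p = y ^ p := congrArg Subtype.val hb
    have h2 : frobenius K p (b : K) = frobenius K p y := h1
    have h3 : (b : K) = y := (frobenius K p).injective h2
    rw [← h3]
    exact b.2
  have hmin : Polynomial.X ^ p - Polynomial.C (⟨y ^ p, hyp⟩ : E) = minpoly E y := by
    apply minpoly.eq_of_irreducible_of_monic hirr
    · rw [map_sub, map_pow, Polynomial.aeval_X, Polynomial.aeval_C]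
      exact sub_self _
    · exact Polynomial.monic_X_pow_sub_C _ hp.ne_zero
  have hint : IsIntegral E y := by
    refine ⟨_, Polynomial.monic_X_pow_sub_C (⟨y ^ p, hyp⟩ : E) hp.ne_zero, ?_⟩
    rw [← Polynomial.aeval_def, map_sub, map_pow, Polynomial.aeval_X, Polynomial.aeval_C]
    exact sub_self _
  have h1 := IntermediateField.adjoin.finrank hint
  rw [← hmin, Polynomial.natDegree_X_pow_sub_C] at h1
  have h2 := Module.finrank_mul_finrank E (IntermediateField.adjoin E {y}) K
  rw [← h2]
  rw [h1]

/-- **PBS.** -/
theorem pbs : S_PBS := by
  intro p _ k _ _ _ d S K _ _ _ _ _ _ _ _ _ _ x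
  classical
  have hp : p.Prime := Fact.out
  -- the fraction field of `P`
  let P := MvPowerSeries (Fin d) k
  have : IsDomain P := Function.Injective.isDomain (algebraMap P S)
    (FaithfulSMul.algebraMap_injective P S)
  have hinj : Function.Injective ((algebraMap S K).comp (algebraMap P S)) :=
    (IsFractionRing.injective S K).comp (FaithfulSMul.algebraMap_injective P S)
  let L := FractionRing P
  let f : L →+* K := IsFractionRing.lift hinj
  have hfP : ∀ g : P, f (algebraMap P L g) = algebraMap S K (algebraMap P S g) := fun g =>
    IsFractionRing.lift_algebraMap hinj g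
  have hcL : CharP L p := (RingHom.charP_iff f f.injective p).2 inferInstance
  have hdeg : 0 < Module.finrank (frobenius K p).fieldRange K ∧
      Module.finrank (frobenius K p).fieldRange K ≤ p ^ d := by
    rw [frobDegK p L K f (finiteFrac P S L K f hfP)]
    exact frobDeg p k d L
  have hfinK : Module.Finite (frobenius K p).fieldRange K := Module.finite_of_finrank_pos hdeg.1
  have hmemF : ∀ (E : IntermediateField (frobenius K p).fieldRange K) (z : K), z ^ p ∈ E := by
    intro E z
    have h1 := E.algebraMap_mem ⟨frobenius K p z, ⟨z, rfl⟩⟩
    exact h1
  have key : ∀ t : Finset (Fin d), ∃ x' : Fin d → S,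
      (∀ i, x' i - x i ∈ IsLocalRing.maximalIdeal S ^ 2) ∧
      (IntermediateField.adjoin (frobenius K p).fieldRange
        ((fun i => algebraMap S K (x' i)) '' (t : Set (Fin d))) = ⊤ ∨
        p ^ t.card * Module.finrank (IntermediateField.adjoin (frobenius K p).fieldRange
          ((fun i => algebraMap S K (x' i)) '' (t : Set (Fin d)))) K ≤ p ^ d) := by
    intro t
    induction t using Finset.induction_on with
    | empty =>
      refine ⟨x, fun i => ?_, Or.inr ?_⟩
      · rw [sub_self]
        exact Ideal.zero_mem _
      · rw [Finset.card_empty, pow_zero, one_mul, Finset.coe_empty, Set.image_empty,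
          IntermediateField.adjoin_empty, IntermediateField.finrank_bot']
        exact hdeg.2
    | insert j t hj ih =>
      obtain ⟨x', hx', h⟩ := ih
      -- it suffices to choose the new element
      have himg : ∀ y : S, (fun i => algebraMap S K (Function.update x' j y i)) ''
          ((insert j t : Finset (Fin d)) : Set (Fin d)) =
          insert (algebraMap S K y) ((fun i => algebraMap S K (x' i)) '' (t : Set (Fin d))) := by
        intro y
        rw [Finset.coe_insert, Set.image_insert_eq, Function.update_self]
        congr 1
        apply Set.image_congr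
        intro i hi
        have hij : i ≠ j := fun h => hj (h ▸ hi)
        show algebraMap S K (Function.update x' j y i) = algebraMap S K (x' i)
        rw [Function.update_of_ne hij]
      have hupd : ∀ y : S, y - x j ∈ IsLocalRing.maximalIdeal S ^ 2 →
          ∀ i, Function.update x' j y i - x i ∈ IsLocalRing.maximalIdeal S ^ 2 := by
        intro y hy i
        by_cases hij : i = j
        · rw [hij, Function.update_self]
          exact hy
        · rw [Function.update_of_ne hij]
          exact hx' i
      by_cases htop : IntermediateField.adjoin (frobenius K p).fieldRange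
          ((fun i => algebraMap S K (x' i)) '' (t : Set (Fin d))) = ⊤
      · refine ⟨Function.update x' j (x j), hupd _ ?_, Or.inl ?_⟩
        · rw [sub_self]
          exact Ideal.zero_mem _
        · rw [himg, eq_top_iff, ← htop]
          exact IntermediateField.adjoin.mono _ _ _ (Set.subset_insert _ _)
      · have hle := h.resolve_left htop
        -- choose the new element
        obtain ⟨y, hy1, hy2⟩ : ∃ y : S, y - x j ∈ IsLocalRing.maximalIdeal S ^ 2 ∧
            algebraMap S K y ∉ IntermediateField.adjoin (frobenius K p).fieldRange
              ((fun i => algebraMap S K (x' i)) '' (t : Set (Fin d))) := by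
          by_cases hxj : algebraMap S K (x j) ∈ IntermediateField.adjoin
              (frobenius K p).fieldRange ((fun i => algebraMap S K (x' i)) '' (t : Set (Fin d)))
          · obtain ⟨y, hy⟩ : ∃ y : S, algebraMap S K y ∉ IntermediateField.adjoin
                (frobenius K p).fieldRange
                ((fun i => algebraMap S K (x' i)) '' (t : Set (Fin d))) := by
              by_contra hcon
              push Not at hcon
              apply htop
              rw [eq_top_iff]
              intro z _
              obtain ⟨a, b, _, rfl⟩ := IsFractionRing.div_surjective (A := S) z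
              exact div_mem (hcon a) (hcon b)
            have hs0 : algebraMap P S (MvPowerSeries.X j) ≠ 0 := by
              intro h0
              have h1 : (MvPowerSeries.X j : P) = 0 :=
                FaithfulSMul.algebraMap_injective P S (by rw [h0, map_zero])
              have h2 := congrArg (MvPowerSeries.coeff (Finsupp.single j 1)) h1
              rw [MvPowerSeries.coeff_index_single_self_X, map_zero] at h2
              exact one_ne_zero h2
            have hsm : algebraMap P S (MvPowerSeries.X j) ∈ IsLocalRing.maximalIdeal S := by
              rw [IsLocalRing.mem_maximalIdeal, mem_nonunits_iff]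
              intro hu
              have h1 : IsUnit (MvPowerSeries.X j : P) := isUnit_of_map_unit (algebraMap P S) _ hu
              have h2 := h1.map (MvPowerSeries.constantCoeff (σ := Fin d) (R := k))
              rw [MvPowerSeries.constantCoeff_X] at h2
              exact not_isUnit_zero h2
            refine ⟨x j + (algebraMap P S (MvPowerSeries.X j)) ^ p * y, ?_, ?_⟩
            · rw [add_sub_cancel_left]
              apply Ideal.mul_mem_right
              exact Ideal.pow_le_pow_right hp.two_le (Ideal.pow_mem_pow hsm p)
            · intro hmem
              rw [map_add, map_mul, map_pow] at hmem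
              have h1 := sub_mem hmem hxj
              rw [add_sub_cancel_left] at h1
              have h2 := hmemF (IntermediateField.adjoin (frobenius K p).fieldRange
                ((fun i => algebraMap S K (x' i)) '' (t : Set (Fin d))))
                (algebraMap S K (algebraMap P S (MvPowerSeries.X j)))
              have h3 := div_mem h1 h2
              have h4 : algebraMap S K (algebraMap P S (MvPowerSeries.X j)) ^ p ≠ 0 := by
                apply pow_ne_zero
                intro h0
                exact hs0 (IsFractionRing.injective S K (by rw [h0, map_zero]))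
              rw [mul_div_cancel_left₀ _ h4] at h3
              exact hy h3
          · refine ⟨x j, ?_, hxj⟩
            rw [sub_self]
            exact Ideal.zero_mem _
        refine ⟨Function.update x' j y, hupd _ hy1, Or.inr ?_⟩
        rw [himg, Finset.card_insert_of_notMem hj]
        have hstep := stepDeg p _ K _ (algebraMap S K y) hy2 (hmemF _ _)
        have hadj : IntermediateField.adjoin (frobenius K p).fieldRange
            (insert (algebraMap S K y) ((fun i => algebraMap S K (x' i)) '' (t : Set (Fin d)))) =
            IntermediateField.restrictScalars (frobenius K p).fieldRange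
              (IntermediateField.adjoin (IntermediateField.adjoin (frobenius K p).fieldRange
              ((fun i => algebraMap S K (x' i)) '' (t : Set (Fin d)))) {algebraMap S K y}) := by
          rw [IntermediateField.adjoin_adjoin_left, Set.union_singleton]
        rw [hadj]
        have hfr : Module.finrank (IntermediateField.restrictScalars (frobenius K p).fieldRange
              (IntermediateField.adjoin (IntermediateField.adjoin (frobenius K p).fieldRange
              ((fun i => algebraMap S K (x' i)) '' (t : Set (Fin d)))) {algebraMap S K y})) K =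
            Module.finrank (IntermediateField.adjoin (IntermediateField.adjoin
              (frobenius K p).fieldRange
              ((fun i => algebraMap S K (x' i)) '' (t : Set (Fin d)))) {algebraMap S K y}) K := rfl
        rw [hfr, pow_succ, mul_assoc, hstep]
        exact hle
  obtain ⟨x', hx', h⟩ := key Finset.univ
  refine ⟨x', hx', ?_⟩
  rw [Finset.coe_univ, Set.image_univ] at h
  rcases h with h | h
  · exact h
  · rw [Finset.card_univ, Fintype.card_fin] at h
    rw [← IntermediateField.finrank_eq_one_iff_eq_top]
    apply le_antisymm
    · have h1 : p ^ d * Module.finrank (IntermediateField.adjoin (frobenius K p).fieldRange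
          (Set.range fun i => algebraMap S K (x' i))) K ≤ p ^ d * 1 := by
        rw [mul_one]
        exact h
      exact Nat.le_of_mul_le_mul_left h1 (pow_pos hp.pos _)
    · exact Module.finrank_pos

end Pool.Agent.H363.FT867
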